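import Pool.Agent.H95.NV.Targets1

/-!
# Nonvanishing over totally real fields, part A, (IDR): the norm of the ideals
-/

set_option autoImplicit false
set_option linter.unusedSectionVars false

namespace Pool.Agent.H75.NV

open NumberField Pool.Agent.H95.NV
open scoped nonZeroDivisors
open Pool.Agent.H65.CM4 (Pl rv nm dk dg)

section

variable {k K : Type} [Field k] [NumberField k] [IsTotallyReal k] [Field K] [NumberField K]
  [Algebra k K]

/-- `q q' c` is in `A` if `c ∈ A f ^ 2`. -/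
theorem qqc_mem {f : Ideal (𝓞 k)}
    (h6 : ∀ (A : Ideal (𝓞 k)) (x : k), (∀ q ∈ fi f, ∃ t ∈ A, (t : k) = q * x) ↔
      ∃ t ∈ A * f, (t : k) = x)
    {A : Ideal (𝓞 k)} {c : 𝓞 k} (hc : c ∈ A * f ^ 2) {q q' : k} (hq : q ∈ fi f)
    (hq' : q' ∈ fi f) : ∃ t ∈ A, (t : k) = q * (q' * (c : k)) := by
  rw [pow_two, ← mul_assoc] at hc
  obtain ⟨t₁, ht₁, h₁⟩ := (h6 (A * f) c).2 ⟨c, hc, rfl⟩ q' hq'
  obtain ⟨t₂, ht₂, h₂⟩ := (h6 A t₁).2 ⟨t₁, ht₁, rfl⟩ q hq
  exact ⟨t₂, ht₂, by rw [h₂, h₁]⟩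

/-- a root of a monic quadratic polynomial over `𝓞 k` is an integer of `K`. -/
theorem int_of_quad {z : K} {s t : 𝓞 k}
    (h : z ^ 2 - algebraMap k K (s : k) * z + algebraMap k K (t : k) = 0) :
    ∃ y : 𝓞 K, (y : K) = z := by
  have h1 : IsIntegral (𝓞 k) z := by
    refine ⟨Polynomial.X ^ 2 - Polynomial.C s * Polynomial.X + Polynomial.C t, ?_, ?_⟩
    · monicity!
    · simp only [Polynomial.eval₂_add, Polynomial.eval₂_sub, Polynomial.eval₂_mul,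
        Polynomial.eval₂_pow, Polynomial.eval₂_X, Polynomial.eval₂_C]
      rw [IsScalarTower.algebraMap_apply (𝓞 k) k K, IsScalarTower.algebraMap_apply (𝓞 k) k K]
      exact h
  have h2 : IsIntegral ℤ z := isIntegral_trans z h1
  exact ⟨⟨z, h2⟩, rfl⟩

/-- an element of `k` which is an integer of `K` is an integer of `k`. -/
theorem int_of_K {x : k} {y : 𝓞 K} (h : (y : K) = algebraMap k K x) : ∃ t : 𝓞 k, (t : k) = x := by
  have h1 : IsIntegral ℤ (algebraMap k K x) := by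
    rw [← h]
    exact RingOfIntegers.isIntegral_coe y
  have h2 : IsIntegral ℤ x := (isIntegral_algebraMap_iff (algebraMap k K).injective).1 h1
  exact ⟨⟨x, h2⟩, rfl⟩

theorem w_sq {D b c : 𝓞 k} {δ : K} (hδ : δ ^ 2 = -algebraMap k K (D : k))
    (hc : 4 * c = b ^ 2 + D) :
    w b δ ^ 2 - algebraMap k K (b : k) * w b δ + algebraMap k K (c : k) = 0 := by
  have h1 : (4 : K) * algebraMap k K (c : k) =
      algebraMap k K (b : k) ^ 2 + algebraMap k K (D : k) := by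
    have h2 := congrArg (algebraMap (𝓞 k) k) hc
    rw [map_mul, map_add, map_pow, map_ofNat] at h2
    have h3 := congrArg (algebraMap k K) h2
    rw [map_mul, map_add, map_pow, map_ofNat] at h3
    exact h3
  unfold w
  have h4 : algebraMap k K (c : k) =
      (algebraMap k K (b : k) ^ 2 + algebraMap k K (D : k)) / 4 := by
    rw [← h1]
    ring
  rw [h4]
  field_simp
  ring_nf
  rw [hδ]
  ring

/-- `q w` is an integer. -/
theorem qw_int {f : Ideal (𝓞 k)}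
    (h6 : ∀ (A : Ideal (𝓞 k)) (x : k), (∀ q ∈ fi f, ∃ t ∈ A, (t : k) = q * x) ↔
      ∃ t ∈ A * f, (t : k) = x)
    {A : Ideal (𝓞 k)} {D b : 𝓞 k} {δ : K} (hδ : δ ^ 2 = -algebraMap k K (D : k))
    (hA : Adm f D A b) {q : k} (hq : q ∈ fi f) :
    ∃ z : 𝓞 K, (z : K) = algebraMap k K q * w b δ := by
  obtain ⟨-, hb, c, hc, h4⟩ := hA
  obtain ⟨t, -, ht⟩ := qqc_mem h6 hc hq hq
  obtain ⟨s, hs⟩ := hq b hb
  apply int_of_quad (s := s) (t := t)
  rw [ht, hs, map_mul, map_mul, map_mul]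
  have h1 := w_sq hδ h4
  calc (algebraMap k K q * w b δ) ^ 2 -
        algebraMap k K q * algebraMap k K (b : k) * (algebraMap k K q * w b δ) +
        algebraMap k K q * (algebraMap k K q * algebraMap k K (c : k))
      = algebraMap k K q ^ 2 *
        (w b δ ^ 2 - algebraMap k K (b : k) * w b δ + algebraMap k K (c : k)) := by ring
    _ = 0 := by rw [h1, mul_zero]

theorem w_sub (b b₀ : 𝓞 k) (δ : K) : w b δ - w b₀ δ = algebraMap k K (((b : k) - b₀) / 2) := by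
  unfold w
  rw [map_div₀, map_sub, map_ofNat]
  ring

/-- `q (b - b₀) / 2` is an integer. -/
theorem qd_int {f : Ideal (𝓞 k)}
    (h6 : ∀ (A : Ideal (𝓞 k)) (x : k), (∀ q ∈ fi f, ∃ t ∈ A, (t : k) = q * x) ↔
      ∃ t ∈ A * f, (t : k) = x)
    {A A₀ : Ideal (𝓞 k)} {D b b₀ : 𝓞 k} {δ : K} (hδ : δ ^ 2 = -algebraMap k K (D : k))
    (hA : Adm f D A b) (hA₀ : Adm f D A₀ b₀) {q : k} (hq : q ∈ fi f) :
    ∃ t : 𝓞 k, (t : k) = q * (((b : k) - b₀) / 2) := by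
  obtain ⟨z, hz⟩ := qw_int h6 hδ hA hq
  obtain ⟨z₀, hz₀⟩ := qw_int h6 hδ hA₀ hq
  apply int_of_K (K := K) (y := z - z₀)
  have h1 : ((z - z₀ : 𝓞 K) : K) = (z : K) - (z₀ : K) := map_sub (algebraMap (𝓞 K) K) z z₀
  rw [h1, hz, hz₀, ← mul_sub, w_sub, map_mul]

/-- the coordinates of the elements of an extended ideal. -/
theorem map_coord {f : Ideal (𝓞 k)} {D b₀ : 𝓞 k} {δ : K} (hKD : KD f D b₀ δ)
    (e : Ideal (𝓞 k)) {z : 𝓞 K}
    (hz : z ∈ e.map (algebraMap (𝓞 k) (𝓞 K))) :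
    ∃ x ∈ e, ∃ y : k, (∀ t ∈ f, ∃ s ∈ e, (s : k) = y * (t : k)) ∧
      (z : K) = algebraMap k K (x : k) + algebraMap k K y * w b₀ δ := by
  have hz' : z ∈ (e • (⊤ : Submodule (𝓞 k) (𝓞 K))) := by
    rw [Ideal.smul_top_eq_map]
    exact hz
  refine Submodule.smul_induction_on hz' ?_ ?_
  · intro r hr n _
    obtain ⟨p, q, hq, hn⟩ := (hKD.int (n : K)).1 ⟨n, rfl⟩
    refine ⟨r * p, Ideal.mul_mem_right _ _ hr, (r : k) * q, ?_, ?_⟩
    · intro t ht
      obtain ⟨s, hs⟩ := hq t ht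
      refine ⟨r * s, Ideal.mul_mem_right _ _ hr, ?_⟩
      show algebraMap (𝓞 k) k (r * s) = _
      rw [map_mul]
      show (r : k) * s = _
      rw [hs, mul_assoc]
    · have h3 : ((r • n : 𝓞 K) : K) = algebraMap k K (r : k) * (n : K) := by
        show algebraMap (𝓞 K) K (r • n) = _
        rw [Algebra.smul_def, map_mul, ← IsScalarTower.algebraMap_apply (𝓞 k) (𝓞 K) K,
          IsScalarTower.algebraMap_apply (𝓞 k) k K]
      rw [h3, hn, cmul, map_mul]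
      ring
  · rintro z z' ⟨x, hx, y, hy, hz⟩ ⟨x', hx', y', hy', hz'⟩
    refine ⟨x + x', Ideal.add_mem _ hx hx', y + y', ?_, ?_⟩
    · intro t ht
      obtain ⟨s, hs, hst⟩ := hy t ht
      obtain ⟨s', hs', hst'⟩ := hy' t ht
      refine ⟨s + s', Ideal.add_mem _ hs hs', ?_⟩
      show algebraMap (𝓞 k) k (s + s') = _
      rw [map_add]
      show (s : k) + s' = _
      rw [hst, hst', add_mul]
    · have h3 : ((z + z' : 𝓞 K) : K) = (z : K) + (z' : K) := map_add (algebraMap (𝓞 K) K) z z'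
      rw [h3, hz, hz', cadd, map_add]
      ring

end

theorem idr_second {k K : Type} [Field k] [NumberField k] [IsTotallyReal k] [Field K]
    [NumberField K] [Algebra k K] [Algebra.IsQuadraticExtension k K] (hCOO : T_COO)
    (hFNV : T_FNV) (hIDC : T_IDC) {f : Ideal (𝓞 k)} {D b₀ : 𝓞 k} {δ : K} (hKD : KD f D b₀ δ)
    {A : Ideal (𝓞 k)} {b : 𝓞 k} (hA : Adm f D A b) (e : Ideal (𝓞 k))
    (he : Id f A b δ ≤ e.map (algebraMap (𝓞 k) (𝓞 K))) : e = ⊤ := by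
  obtain ⟨⟨s, hs, hs1⟩, -, -, -, -, h6⟩ := hFNV k f hKD.f_ne
  obtain ⟨hI, -⟩ := hIDC k K f D b₀ δ hKD A b hA
  obtain ⟨-, hu, -⟩ := hCOO k K D b₀ δ hKD.pos hKD.sq
  have key : ∀ q ∈ fi f, ∀ t ∈ f, ∃ r ∈ e, (r : k) = q * (t : k) := by
    intro q hq t ht
    obtain ⟨z, hz⟩ := qw_int h6 hKD.sq hA hq
    have hzI : z ∈ Id f A b δ := (hI z).2 ⟨0, Ideal.zero_mem _, q, hq, by
      rw [hz]
      simp⟩
    obtain ⟨x, hx, y, hy, hz'⟩ := map_coord hKD e (he hzI)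
    obtain ⟨r, hr⟩ := qd_int h6 hKD.sq hA hKD.adm hq
    have h7 : algebraMap k K ((x : k) - r) + algebraMap k K (y - q) * w b₀ δ = 0 := by
      have h8 : (z : K) = algebraMap k K q * w b₀ δ + algebraMap k K (r : k) := by
        rw [hz, hr, map_mul, ← w_sub]
        ring
      rw [map_sub, map_sub]
      linear_combination h8 - hz'
    have h9 := (hu _ _ h7).2
    have h10 : y = q := sub_eq_zero.1 h9
    rw [← h10]
    exact hy t ht
  rw [Ideal.eq_top_iff_one]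
  choose! g hg hg' using key
  have h1 : (∑ x ∈ s, g x.2 x.1 : 𝓞 k) = 1 := by
    apply RingOfIntegers.coe_injective
    show algebraMap (𝓞 k) k (∑ x ∈ s, g x.2 x.1) = algebraMap (𝓞 k) k 1
    rw [map_sum, map_one, ← hs1]
    refine Finset.sum_congr rfl fun x hx => ?_
    show (g x.2 x.1 : k) = _
    rw [hg' x.2 (hs x hx).2 x.1 (hs x hx).1, mul_comm]
  rw [← h1]
  exact Ideal.sum_mem _ fun x hx => hg x.2 (hs x hx).2 x.1 (hs x hx).1

theorem idr_le {k K : Type} [Field k] [NumberField k] [IsTotallyReal k] [Field K]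
    [NumberField K] [Algebra k K] [Algebra.IsQuadraticExtension k K] (hCOO : T_COO)
    (hFNV : T_FNV) (hIDC : T_IDC) {f : Ideal (𝓞 k)} {D b₀ : 𝓞 k} {δ : K} (hKD : KD f D b₀ δ)
    {A : Ideal (𝓞 k)} {b : 𝓞 k} (hA : Adm f D A b) :
    Ideal.relNorm (𝓞 k) (Id f A b δ) ≤ A := by
  obtain ⟨-, -, -, -, -, h6⟩ := hFNV k f hKD.f_ne
  obtain ⟨hI, -⟩ := hIDC k K f D b₀ δ hKD A b hA
  obtain ⟨-, -, hn, -⟩ := hCOO k K D b δ hKD.pos hKD.sq
  rw [Ideal.relNorm_apply, Ideal.span_le]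
  rintro _ ⟨z, hz, rfl⟩
  obtain ⟨x, hx, q, hq, hxq⟩ := (hI z).1 hz
  have h1 : ((Algebra.intNorm (𝓞 k) (𝓞 K) z : 𝓞 k) : k) = Algebra.norm k (z : K) :=
    Algebra.algebraMap_intNorm (A := 𝓞 k) (K := k) (L := K) (B := 𝓞 K) z
  obtain ⟨-, hb, c, hc, h4⟩ := hA
  obtain ⟨t, ht, htc⟩ := qqc_mem h6 hc hq hq
  obtain ⟨s, hs⟩ := hq b hb
  have h5 : ((b : k) ^ 2 + (D : k)) / 4 = (c : k) := by
    have h2 := congrArg (algebraMap (𝓞 k) k) h4
    rw [map_mul, map_add, map_pow, map_ofNat] at h2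
    have h3 : (4 : k) * (c : k) = (b : k) ^ 2 + (D : k) := h2
    rw [← h3]
    ring
  have h7 : Algebra.intNorm (𝓞 k) (𝓞 K) z = x * x + s * x + t := by
    apply RingOfIntegers.coe_injective
    show ((Algebra.intNorm (𝓞 k) (𝓞 K) z : 𝓞 k) : k) = _
    rw [h1, hxq, hn, h5]
    show _ = algebraMap (𝓞 k) k (x * x + s * x + t)
    rw [map_add, map_add, map_mul, map_mul]
    show _ = (x : k) * x + (s : k) * x + t
    rw [hs, htc]
    ring
  rw [h7]
  exact Ideal.add_mem _ (Ideal.add_mem _ (Ideal.mul_mem_left _ _ hx) (Ideal.mul_mem_left _ _ hx)) ht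

theorem idr_card {k K : Type} [Field k] [NumberField k] [IsTotallyReal k] [Field K]
    [NumberField K] [Algebra k K] [Algebra.IsQuadraticExtension k K] (hCOO : T_COO)
    (hFNV : T_FNV) (hIDC : T_IDC) {f : Ideal (𝓞 k)} {D b₀ : 𝓞 k} {δ : K} (hKD : KD f D b₀ δ)
    {A : Ideal (𝓞 k)} {b : 𝓞 k} (hA : Adm f D A b) :
    Ideal.absNorm (Id f A b δ) = Ideal.absNorm A := by
  obtain ⟨-, -, -, -, -, h6⟩ := hFNV k f hKD.f_ne
  obtain ⟨hI, -⟩ := hIDC k K f D b₀ δ hKD A b hA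
  obtain ⟨-, hu, -⟩ := hCOO k K D b δ hKD.pos hKD.sq
  set φ : 𝓞 k →+* 𝓞 K ⧸ Id f A b δ :=
    (Ideal.Quotient.mk (Id f A b δ)).comp (algebraMap (𝓞 k) (𝓞 K)) with hφ
  have hco : ∀ x : 𝓞 k, ((algebraMap (𝓞 k) (𝓞 K) x : 𝓞 K) : K) = algebraMap k K (x : k) := by
    intro x
    show algebraMap (𝓞 K) K (algebraMap (𝓞 k) (𝓞 K) x) = _
    rw [← IsScalarTower.algebraMap_apply (𝓞 k) (𝓞 K) K, IsScalarTower.algebraMap_apply (𝓞 k) k K]
  have hsur : Function.Surjective φ := by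
    intro y
    obtain ⟨z, rfl⟩ := Ideal.Quotient.mk_surjective y
    obtain ⟨p, q, hq, hz⟩ := (hKD.int (z : K)).1 ⟨z, rfl⟩
    obtain ⟨r, hr⟩ := qd_int h6 hKD.sq hA hKD.adm hq
    refine ⟨p - r, ?_⟩
    show Ideal.Quotient.mk _ (algebraMap (𝓞 k) (𝓞 K) (p - r)) = Ideal.Quotient.mk _ z
    rw [eq_comm, Ideal.Quotient.eq, hI]
    refine ⟨0, Ideal.zero_mem _, q, hq, ?_⟩
    have h1 : ((z - algebraMap (𝓞 k) (𝓞 K) (p - r) : 𝓞 K) : K) =
        (z : K) - ((algebraMap (𝓞 k) (𝓞 K) (p - r) : 𝓞 K) : K) :=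
      map_sub (algebraMap (𝓞 K) K) _ _
    have h2 : ((p - r : 𝓞 k) : k) = (p : k) - r := map_sub (algebraMap (𝓞 k) k) _ _
    rw [h1, hco, h2, map_sub, hr, map_mul, ← w_sub (K := K) b b₀ δ, hz]
    simp only [map_zero]
    ring
  have hker : RingHom.ker φ = A := by
    ext x
    rw [RingHom.mem_ker]
    show Ideal.Quotient.mk _ (algebraMap (𝓞 k) (𝓞 K) x) = 0 ↔ _
    rw [Ideal.Quotient.eq_zero_iff_mem, hI, hco]
    constructor
    · rintro ⟨x', hx', q, hq, h⟩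
      have h7 : algebraMap k K ((x : k) - x') + algebraMap k K (-q) * w b δ = 0 := by
        rw [map_sub, map_neg, h]
        ring
      have h8 := (hu _ _ h7).1
      have h9 : x = x' := RingOfIntegers.coe_injective (sub_eq_zero.1 h8)
      rwa [h9]
    · intro hx
      exact ⟨x, hx, 0, fun a _ => ⟨0, by simp⟩, by simp⟩
  have h1 : Nat.card (𝓞 k ⧸ RingHom.ker φ) = Nat.card (𝓞 k ⧸ A) := by rw [hker]
  rw [Ideal.absNorm_apply, Ideal.absNorm_apply, Submodule.cardQuot_apply,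
    Submodule.cardQuot_apply, ← h1]
  exact (Nat.card_congr (RingHom.quotientKerEquivOfSurjective hsur).toEquiv).symm

theorem pf_IDR (hCOO : T_COO) (hFNV : T_FNV) (hIDC : T_IDC) : T_IDR := by
  intro k K _ _ _ _ _ _ _ f D b₀ δ hKD A b hA
  refine ⟨?_, fun e he => idr_second hCOO hFNV hIDC hKD hA e he⟩
  have h1 := idr_le hCOO hFNV hIDC hKD hA
  have h2 := idr_card hCOO hFNV hIDC hKD hA
  rw [← Ideal.absNorm_relNorm (𝓞 k) (𝓞 K) (Id f A b δ)] at h2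
  obtain ⟨J, hJ⟩ := Ideal.dvd_iff_le.2 h1
  rw [hJ, map_mul] at h2
  have h3 : Ideal.absNorm A ≠ 0 := by
    rw [Ne, Ideal.absNorm_eq_zero_iff]
    exact hA.1
  have h4 : Ideal.absNorm J = 1 := by
    apply Nat.eq_of_mul_eq_mul_left (Nat.pos_of_ne_zero h3)
    rw [h2, mul_one]
  rw [Ideal.absNorm_eq_one_iff] at h4
  rw [hJ, h4, Ideal.mul_top]

end Pool.Agent.H75.NV
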