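import Pool.Agent.H95.NV.Targets1

/-!
# Nonvanishing over totally real fields, part A, (REP): representatives of the ideal classes
-/

set_option autoImplicit false

namespace Pool.Agent.H75.NV

open NumberField Pool.Agent.H95.NV
open scoped nonZeroDivisors
open Pool.Agent.H61.NVK (ci cr)

theorem mk0_cr {k : Type} [Field k] [NumberField k] (c : ClassGroup (𝓞 k)) :
    ClassGroup.mk0 (cr c) = c :=
  Function.surjInv_eq ClassGroup.mk0_surjective c

theorem ci_ne_bot {k : Type} [Field k] [NumberField k] (c : ClassGroup (𝓞 k)) : ci c ≠ ⊥ :=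
  nonZeroDivisors.ne_zero (cr c).2

theorem eqc_iff {k : Type} [Field k] [NumberField k] (I J : (Ideal (𝓞 k))⁰) :
    Eqc (I : Ideal (𝓞 k)) J ↔ ClassGroup.mk0 I = ClassGroup.mk0 J := by
  rw [ClassGroup.mk0_eq_mk0_iff]
  constructor
  · rintro ⟨x, y, hx, hy, h⟩
    exact ⟨x, y, hx, hy, h⟩
  · rintro ⟨x, y, hx, hy, h⟩
    exact ⟨x, y, hx, hy, h⟩

theorem eqc_ci {k : Type} [Field k] [NumberField k] {c c' : ClassGroup (𝓞 k)}
    (h : Eqc (ci c) (ci c')) : c = c' := by
  have h1 := (eqc_iff (cr c) (cr c')).1 h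
  rwa [mk0_cr, mk0_cr] at h1

theorem pf_REP : T_REP := by
  classical
  intro k _ _
  refine ⟨⟨Finset.univ.image ci, ⟨?_, ?_, ?_⟩, ?_⟩, fun c c' h => eqc_ci h, ?_⟩
  · intro f hf
    obtain ⟨c, _, rfl⟩ := Finset.mem_image.1 hf
    exact ci_ne_bot c
  · intro I hI
    refine ⟨ci (ClassGroup.mk0 ⟨I, mem_nonZeroDivisors_of_ne_zero hI⟩),
      Finset.mem_image.2 ⟨_, Finset.mem_univ _, rfl⟩, ?_⟩
    exact (eqc_iff ⟨I, mem_nonZeroDivisors_of_ne_zero hI⟩ (cr _)).2 (mk0_cr _).symm
  · intro f hf f' hf' h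
    obtain ⟨c, _, rfl⟩ := Finset.mem_image.1 hf
    obtain ⟨c', _, rfl⟩ := Finset.mem_image.1 hf'
    rw [eqc_ci h]
  · intro f
    rw [Finset.mem_image]
    constructor
    · rintro ⟨c, _, rfl⟩
      exact ⟨c, rfl⟩
    · rintro ⟨c, rfl⟩
      exact ⟨c, Finset.mem_univ _, rfl⟩
  · intro f f' _ _
    constructor
    · rintro ⟨x, y, hx, hy, h⟩
      have hx' : (x : k) ≠ 0 := RingOfIntegers.coe_ne_zero_iff.2 hx
      have hy' : (y : k) ≠ 0 := RingOfIntegers.coe_ne_zero_iff.2 hy
      refine ⟨(y : k) / x, div_ne_zero hy' hx', fun X => ?_⟩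
      constructor
      · rintro ⟨t, ht, rfl⟩
        have h1 : y * t ∈ Ideal.span {x} * f := by
          rw [h]
          exact Ideal.mem_span_singleton_mul.2 ⟨t, ht, rfl⟩
        obtain ⟨s, hs, hst⟩ := Ideal.mem_span_singleton_mul.1 h1
        refine ⟨s, hs, ?_⟩
        have h2 : (x : k) * s = y * t := by exact_mod_cast congrArg (algebraMap (𝓞 k) k) hst
        rw [div_mul_eq_mul_div, eq_div_iff hx', mul_comm]
        exact h2
      · rintro ⟨s, hs, hsX⟩
        have h1 : x * s ∈ Ideal.span {y} * f' := by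
          rw [← h]
          exact Ideal.mem_span_singleton_mul.2 ⟨s, hs, rfl⟩
        obtain ⟨t, ht, hst⟩ := Ideal.mem_span_singleton_mul.1 h1
        refine ⟨t, ht, ?_⟩
        have h2 : (y : k) * t = x * s := by exact_mod_cast congrArg (algebraMap (𝓞 k) k) hst
        rw [hsX] at h2
        apply mul_left_cancel₀ hy'
        rw [h2]
        field_simp
    · rintro ⟨q, hq, h⟩
      obtain ⟨y, x, hx, hyx⟩ := IsFractionRing.div_surjective (A := 𝓞 k) q
      have hx0 : x ≠ 0 := nonZeroDivisors.ne_zero hx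
      have hx' : (x : k) ≠ 0 := RingOfIntegers.coe_ne_zero_iff.2 hx0
      have hyx' : (y : k) / x = q := hyx
      have hy' : (y : k) ≠ 0 := by
        intro h0
        rw [h0, zero_div] at hyx'
        exact hq hyx'.symm
      have hy0 : y ≠ 0 := RingOfIntegers.coe_ne_zero_iff.1 hy'
      refine ⟨x, y, hx0, hy0, ?_⟩
      ext w
      rw [Ideal.mem_span_singleton_mul, Ideal.mem_span_singleton_mul]
      constructor
      · rintro ⟨z, hz, rfl⟩
        obtain ⟨t, ht, htz⟩ := (h ((z : k) / q)).2 ⟨z, hz, by field_simp⟩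
        refine ⟨t, ht, ?_⟩
        apply RingOfIntegers.coe_injective
        show algebraMap (𝓞 k) k (y * t) = algebraMap (𝓞 k) k (x * z)
        rw [map_mul, map_mul]
        show (y : k) * t = x * z
        rw [htz, ← hyx']
        field_simp
      · rintro ⟨t, ht, rfl⟩
        obtain ⟨z, hz, hzt⟩ := (h (t : k)).1 ⟨t, ht, rfl⟩
        refine ⟨z, hz, ?_⟩
        apply RingOfIntegers.coe_injective
        show algebraMap (𝓞 k) k (x * z) = algebraMap (𝓞 k) k (y * t)
        rw [map_mul, map_mul]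
        show (x : k) * z = y * t
        rw [hzt, ← hyx']
        field_simp

end Pool.Agent.H75.NV
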