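import Pool.Agent.H95.NV.Targets1
import Pool.Agent.H77.CM4.CNTP

/-!
# Nonvanishing over totally real fields, part A, (TRV): all but finitely many `K` are trivial
-/

set_option autoImplicit false

namespace Pool.Agent.H75.NV

open NumberField Pool.Agent.H95.NV
open scoped nonZeroDivisors
open Pool.Agent.H65.CM4 (Pl rv nm dk dg)

/-- The norm of a principal ideal. -/
theorem nm_span (k : Type) [Field k] [NumberField k] [IsTotallyReal k] (x : 𝓞 k) :
    nm (Ideal.span {x}) = ∏ v : Pl k, |rv v (x : k)| := by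
  rw [Pool.Agent.H77.CM4.ntp_prod, nm, Ideal.absNorm_span_singleton]
  have h1 : ((Algebra.norm ℤ x : ℤ) : ℚ) = Algebra.norm ℚ (x : k) :=
    Algebra.coe_norm_int x
  rw [← h1, Nat.cast_natAbs, Int.cast_abs, Rat.cast_intCast]

theorem nm_map {k K : Type} [Field k] [NumberField k] [Field K] [NumberField K] [Algebra k K]
    [Algebra.IsQuadraticExtension k K] (a : Ideal (𝓞 k)) :
    nm (a.map (algebraMap (𝓞 k) (𝓞 K))) = nm a ^ 2 := by
  rw [nm, nm, Ideal.absNorm_algebraMap, ← IsFractionRing.finrank_eq (𝓞 k) k (𝓞 K) K,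
    Algebra.IsQuadraticExtension.finrank_eq_two k K]
  push_cast
  rfl

theorem nm_mul {K : Type} [Field K] [NumberField K] (I J : Ideal (𝓞 K)) :
    nm (I * J) = nm I * nm J := by
  rw [nm, nm, nm, map_mul]
  push_cast
  rfl

theorem nm_pos {K : Type} [Field K] [NumberField K] {I : Ideal (𝓞 K)} (hI : I ≠ ⊥) :
    0 < nm I := by
  rw [nm]
  have : Ideal.absNorm I ≠ 0 := by
    rw [Ne, Ideal.absNorm_eq_zero_iff]
    exact hI
  exact_mod_cast Nat.pos_of_ne_zero this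

theorem pf_TRV (hMKI : Pool.Agent.H95.CM.T_MKI) (hREP : T_REP) (hKDX : T_KDX) (hSMV : T_SMV) :
    T_TRV := by
  intro k _ _ _
  obtain ⟨M, hM1, hM⟩ := hMKI k
  obtain ⟨R, hR, -⟩ := (hREP k).1
  refine ⟨4 ^ dg k * (dk k : ℝ) ^ 2 * M ^ 2 + 1, by positivity, ?_⟩
  intro K _ _ _ _ _ hX
  obtain ⟨f, -, D, b, δ, hKD⟩ := hKDX k K R hR
  intro x y a a' hx hy ha ha' h
  obtain ⟨α, hαa, hα0, hαM⟩ := hM a ha
  have h1 : x * algebraMap (𝓞 k) (𝓞 K) α ∈
      Ideal.span {y} * a'.map (algebraMap (𝓞 k) (𝓞 K)) := by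
    rw [← h]
    exact Ideal.mem_span_singleton_mul.2 ⟨_, Ideal.mem_map_of_mem _ hαa, rfl⟩
  obtain ⟨z, hz, hyz⟩ := Ideal.mem_span_singleton_mul.1 h1
  -- norms
  have n1 : nm (Ideal.span {x}) * nm a ^ 2 = nm (Ideal.span {y}) * nm a' ^ 2 := by
    rw [← nm_map (K := K), ← nm_map (K := K), ← nm_mul, ← nm_mul, h]
  have n2 : nm (Ideal.span {x}) * nm (Ideal.span {α}) ^ 2 =
      nm (Ideal.span {y}) * nm (Ideal.span {z}) := by
    rw [← nm_map (K := K), ← nm_mul, ← nm_mul, Ideal.map_span, Set.image_singleton,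
      Ideal.span_singleton_mul_span_singleton, Ideal.span_singleton_mul_span_singleton, hyz]
  have hs : ∀ {t : 𝓞 K}, t ≠ 0 → 0 < nm (Ideal.span {t}) := fun ht =>
    nm_pos (by rwa [Ne, Ideal.span_singleton_eq_bot])
  have px := hs hx
  have py := hs hy
  have pa := nm_pos ha
  have pa' := nm_pos ha'
  rw [← nm_span] at hαM
  have pα : 0 ≤ nm (Ideal.span {α}) := by rw [nm]; positivity
  have n3 : nm (Ideal.span {z}) * nm a ^ 2 = nm (Ideal.span {α}) ^ 2 * nm a' ^ 2 := by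
    apply mul_left_cancel₀ (mul_pos px py).ne'
    calc nm (Ideal.span {x}) * nm (Ideal.span {y}) * (nm (Ideal.span {z}) * nm a ^ 2)
        = (nm (Ideal.span {x}) * nm a ^ 2) * (nm (Ideal.span {y}) * nm (Ideal.span {z})) := by ring
      _ = (nm (Ideal.span {y}) * nm a' ^ 2) *
          (nm (Ideal.span {x}) * nm (Ideal.span {α}) ^ 2) := by rw [n1, n2]
      _ = _ := by ring
  have n4 : nm (Ideal.span {z}) ≤ M ^ 2 * nm a' ^ 2 := by
    have h2 : nm (Ideal.span {α}) ^ 2 ≤ (M * nm a) ^ 2 := pow_le_pow_left₀ pα hαM 2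
    have h3 : nm (Ideal.span {z}) * nm a ^ 2 ≤ M ^ 2 * nm a' ^ 2 * nm a ^ 2 := by
      rw [n3]
      calc nm (Ideal.span {α}) ^ 2 * nm a' ^ 2 ≤ (M * nm a) ^ 2 * nm a' ^ 2 := by gcongr
        _ = _ := by ring
    exact le_of_mul_le_mul_right h3 (by positivity)
  obtain ⟨p, hp, hzp⟩ := hSMV k K f D b δ hKD a' z hz (by
    calc 4 ^ dg k * (dk k : ℝ) ^ 2 * nm (Ideal.span {z})
        ≤ 4 ^ dg k * (dk k : ℝ) ^ 2 * (M ^ 2 * nm a' ^ 2) := by gcongr
      _ = (4 ^ dg k * (dk k : ℝ) ^ 2 * M ^ 2) * nm a' ^ 2 := by ring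
      _ < |(discr K : ℝ)| * nm a' ^ 2 := by
        apply mul_lt_mul_of_pos_right _ (by positivity)
        linarith)
  have hq : algebraMap (𝓞 k) (𝓞 K) α * x = algebraMap (𝓞 k) (𝓞 K) p * y := by
    rw [← hzp, mul_comm, ← hyz, mul_comm]
  refine ⟨p, α, ?_, hα0, hq⟩
  rintro rfl
  rw [map_zero, zero_mul] at hq
  have h3 : algebraMap (𝓞 k) (𝓞 K) α ≠ 0 := by
    rw [Ne, FaithfulSMul.algebraMap_eq_zero_iff]
    exact hα0
  exact (mul_ne_zero h3 hx) hq

end Pool.Agent.H75.NV
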